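import Pool.Agent.U243.DB.Stm
import Pool.Agent.U324.DB.DBSC
import Pool.Agent.U261.DB.DIFF
import Pool.Agent.U261.DB.PAIR
import Pool.Agent.U261.DB.FRAC1
import Pool.Agent.U394.DB.MODUL
import Pool.Agent.U394.DB.PERIM
import Pool.Agent.U394.DB.DYAD
import Pool.Agent.U394.DB.EXRAD
import Pool.Agent.U394.DB.SCALE
import Pool.Agent.U394.DB.SUM
import Pool.Agent.U736.DB.APPROX
import Pool.Agent.U875.DB.VARV

/-!
# The proved parts of project DB

Each helper module proves one of the statements of `Pool.Agent.U243.DB.Stm`; this file collects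
them under one namespace.
-/

namespace Pool.Agent.U243.DB

theorem t_DIFF : S_DIFF := Pool.Agent.U261.DB.t_DIFF
theorem t_SUM : S_SUM := Pool.Agent.U394.DB.t_SUM
theorem t_DYAD : S_DYAD := Pool.Agent.U394.DB.t_DYAD
theorem t_PAIR : S_PAIR := Pool.Agent.U261.DB.t_PAIR
theorem t_DBSC : S_DBSC := Pool.Agent.U324.DB.t_DBSC
theorem t_SCALE : S_SCALE := Pool.Agent.U394.DB.t_SCALE t_DYAD
theorem t_VARV : S_VARV := Pool.Agent.U875.DB.t_VARV
theorem t_EXRAD : S_EXRAD := Pool.Agent.U394.DB.t_EXRAD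
theorem u_APPROX : S_APPROX := t_APPROX t_DBSC
theorem t_MODUL : S_MODUL := Pool.Agent.U394.DB.t_MODUL
theorem t_PERIM : S_PERIM := Pool.Agent.U394.DB.t_PERIM
theorem t_FRAC1 : S_FRAC1 := Pool.Agent.U261.DB.t_FRAC1 t_DBSC

end Pool.Agent.U243.DB
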