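import Mathlib

/-!
# Hölder bounds for the d-bar derivative of indicator functions: definitions
-/

set_option autoImplicit false

open MeasureTheory Set
open scoped ENNReal NNReal ContDiff

namespace Pool.Agent.U243.DB

/-- The derivative `∂f/∂z̄ = (∂f/∂x + i ∂f/∂y)/2`. -/
noncomputable def dbar (f : ℂ → ℂ) (z : ℂ) : ℂ :=
  (1 / 2) * (fderiv ℝ f z 1 + Complex.I * fderiv ℝ f z Complex.I)

/-- The value of the distribution `∂χ_Ω/∂z̄` on the test function `f`: minus the integral of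
`∂f/∂z̄` over `Ω`. -/
noncomputable def pairing (Ω : Set ℂ) (f : ℂ → ℂ) : ℂ := -∫ z in Ω, dbar f z

/-- The norm of the space `Lip α`, defined by differences of order `k`:
`sup |f| + sup_{h ≠ 0} sup |Δ_h^k f| / |h| ^ α`, with values in `[0, ∞]`. -/
noncomputable def lipNorm (α : ℝ) (k : ℕ) (f : ℂ → ℂ) : ℝ≥0∞ :=
  (⨆ z, ‖f z‖ₑ) + ⨆ (h : ℂ) (_ : h ≠ 0), (⨆ z, ‖((fwdDiff h)^[k] f) z‖ₑ) / ‖h‖ₑ ^ α

/-- The set `Ω` is `α`-admissible (with the norm of `Lip α` defined by differences of order `k`):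
`|⟨∂χ_Ω/∂z̄, f⟩| ≤ C ‖f‖` for all smooth functions `f` with compact support. -/
def IsAdmissible (α : ℝ) (k : ℕ) (Ω : Set ℂ) : Prop :=
  ∃ C : ℝ≥0, ∀ f : ℂ → ℂ, ContDiff ℝ ∞ f → HasCompactSupport f →
    ‖pairing Ω f‖ₑ ≤ C * lipNorm α k f

/-- `η` is an even smooth function with compact support and integral one. -/
structure IsMollifier (η : ℂ → ℝ) : Prop where
  smooth : ContDiff ℝ ∞ η
  compact : HasCompactSupport η
  even : ∀ z, η (-z) = η z
  integral : ∫ z, η z = 1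

/-- The local density of `Ω` at the scale `s`: the convolution of the indicator function of `Ω` with
`s⁻² η(z/s)`. -/
noncomputable def density (η : ℂ → ℝ) (Ω : Set ℂ) (s : ℝ) (z : ℂ) : ℝ :=
  ∫ w in Ω, s⁻¹ ^ 2 * η (s⁻¹ • (z - w))

/-- The total variation of the local density of `Ω` at the scale `s`: the integral of the norm of
its gradient. -/
noncomputable def variation (η : ℂ → ℝ) (Ω : Set ℂ) (s : ℝ) : ℝ≥0∞ :=
  ∫⁻ z, ‖fderiv ℝ (density η Ω s) z‖ₑ

/-- The double integral of `|z - w| ^ (α - 3)` over the pairs `z ∈ Ω`, `w ∉ Ω` at distance less than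
one: the local fractional perimeter of `Ω` of order `1 - α`. -/
noncomputable def fractionalPerimeter (α : ℝ) (Ω : Set ℂ) : ℝ≥0∞ :=
  ∫⁻ z in Ω, ∫⁻ w in Ωᶜ ∩ Metric.ball z 1, ENNReal.ofReal (‖z - w‖ ^ (α - 3))

end Pool.Agent.U243.DB
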