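import Pool.Agent.U243.DB.Suf2

/-!
# Necessity
-/

set_option autoImplicit false

open MeasureTheory Set Filter Topology
open scoped ENNReal NNReal ContDiff

namespace Pool.Agent.U243.DB

/-- the sign -/
noncomputable def sgn (u : ℂ) : ℂ := if u = 0 then 0 else (starRingEnd ℂ) u / (‖u‖ : ℂ)

lemma sgn_norm (u : ℂ) : ‖sgn u‖ ≤ 1 := by
  unfold sgn
  split_ifs with h
  · simp
  · have : ‖u‖ ≠ 0 := norm_ne_zero_iff.2 h
    rw [norm_div, RCLike.norm_conj, Complex.norm_real, norm_norm, div_self this]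

lemma sgn_mul (u : ℂ) : sgn u * u = (‖u‖ : ℂ) := by
  unfold sgn
  split_ifs with h
  · simp [h]
  · have : (‖u‖ : ℂ) ≠ 0 := by exact_mod_cast norm_ne_zero_iff.2 h
    rw [div_mul_eq_mul_div, div_eq_iff this, mul_comm, Complex.mul_conj, Complex.normSq_eq_norm_sq]
    push_cast; ring

lemma sgn_meas : Measurable sgn := by
  unfold sgn
  refine Measurable.ite (measurableSet_singleton 0) measurable_const ?_
  exact (Complex.continuous_conj.measurable).div (Complex.measurable_ofReal.comp measurable_norm)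

/-- the smoothed function -/
noncomputable def G (ψ : ℂ → ℂ) (s : ℝ) (g : ℂ → ℂ) (w : ℂ) : ℂ := ∫ z, g z * sc ψ s (z - w)

lemma sc_cont {ψ : ℂ → ℂ} (hψ : IsKer ψ) (s : ℝ) : Continuous (sc ψ s) := by
  have := hψ.1.continuous
  unfold sc
  fun_prop

lemma sc_int {ψ : ℂ → ℂ} (hψ : IsKer ψ) {s : ℝ} (hs : 0 < s) : Integrable (sc ψ s) := by
  refine (sc_cont hψ s).integrable_of_hasCompactSupport ?_
  have h1 : HasCompactSupport (fun z : ℂ => ψ (s⁻¹ • z)) :=
    hψ.2.comp_homeomorph (Homeomorph.smulOfNeZero s⁻¹ (inv_ne_zero hs.ne'))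
  exact h1.mul_left

lemma G_int {ψ : ℂ → ℂ} (hψ : IsKer ψ) {s : ℝ} (hs : 0 < s) {g : ℂ → ℂ} (hg : Measurable g)
    (hg1 : ∀ z, ‖g z‖ ≤ 1) (w : ℂ) : Integrable (fun z => g z * sc ψ s (z - w)) := by
  have h1 : Integrable (fun z => sc ψ s (z - w)) := (sc_int hψ hs).comp_sub_right w
  refine h1.bdd_mul hg.aestronglyMeasurable (c := 1) (Eventually.of_forall hg1)

/-- the differences of the smoothed function -/
lemma G_diff {ψ : ℂ → ℂ} (hψ : IsKer ψ) {s : ℝ} (hs : 0 < s) {g : ℂ → ℂ} (hg : Measurable g)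
    (hg1 : ∀ z, ‖g z‖ ≤ 1) (k : ℕ) (h w : ℂ) :
    ((fwdDiff h)^[k] (G ψ s g)) w = ∫ z, g z * ((fwdDiff (-h))^[k] (sc ψ s)) (z - w) := by
  rw [fwdDiff_iter_eq_sum_shift]
  have h1 : ∀ z, g z * ((fwdDiff (-h))^[k] (sc ψ s)) (z - w) =
      ∑ j ∈ Finset.range (k + 1), (((-1 : ℤ) ^ (k - j) * (k.choose j : ℤ) : ℤ) : ℂ) *
        (g z * sc ψ s (z - (w + j • h))) := by
    intro z
    rw [fwdDiff_iter_eq_sum_shift, Finset.mul_sum]
    refine Finset.sum_congr rfl fun j _ => ?_
    rw [zsmul_eq_mul, show z - w + j • -h = z - (w + j • h) by simp; ring]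
    ring
  simp_rw [h1]
  rw [integral_finsetSum _ fun j _ => (G_int hψ hs hg hg1 _).const_mul _]
  refine Finset.sum_congr rfl fun j _ => ?_
  rw [zsmul_eq_mul, integral_const_mul]
  rfl

lemma G_diff_le {ψ : ℂ → ℂ} (hψ : IsKer ψ) {s : ℝ} (hs : 0 < s) {g : ℂ → ℂ} (hg : Measurable g)
    (hg1 : ∀ z, ‖g z‖ ≤ 1) (k : ℕ) (h w : ℂ) {b : ℝ≥0∞}
    (hb : ∫⁻ z, ‖((fwdDiff (-h))^[k] (sc ψ s)) z‖ₑ ≤ b) :
    ‖((fwdDiff h)^[k] (G ψ s g)) w‖ₑ ≤ b := by
  rw [G_diff hψ hs hg hg1]
  refine (enorm_integral_le_lintegral_enorm _).trans ?_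
  refine le_trans ?_ hb
  rw [← lintegral_sub_right_eq_self (fun z => ‖((fwdDiff (-h))^[k] (sc ψ s)) z‖ₑ) w]
  refine lintegral_mono fun z => ?_
  rw [enorm_mul]
  have : ‖g z‖ₑ ≤ 1 := by
    rw [← ofReal_norm_eq_enorm]
    exact ENNReal.ofReal_le_one.2 (hg1 z)
  exact mul_le_of_le_one_left' this

lemma fwdDiff_sum (h : ℂ) (k : ℕ) {ι : Type} (I : Finset ι) (c : ι → ℂ) (F : ι → ℂ → ℂ) (w : ℂ) :
    ((fwdDiff h)^[k] (fun w => ∑ i ∈ I, c i * F i w)) w =
      ∑ i ∈ I, c i * ((fwdDiff h)^[k] (F i)) w := by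
  simp only [fwdDiff_iter_eq_sum_shift, Finset.smul_sum, Finset.mul_sum]
  rw [Finset.sum_comm]
  refine Finset.sum_congr rfl fun i _ => Finset.sum_congr rfl fun j _ => ?_
  simp only [zsmul_eq_mul]; ring

theorem t_NEC (hDi : S_DIFF) (hSu : S_SUM) (hDy : S_DYAD) (hP : S_PAIR) (hD : S_DBSC) : S_NEC := by
  intro α k Ω ψ hα hk hΩ hψ hadm
  obtain ⟨C, hC⟩ := hadm
  obtain ⟨B0, hB00, hB0⟩ := hDi ψ 0 hψ
  obtain ⟨B, hBn, hB⟩ := hDi ψ k hψ
  obtain ⟨K, hK0, hK⟩ := hSu α k hα hk
  obtain ⟨-, -, -, hDU⟩ := hD ψ hψ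
  obtain ⟨-, hVm, hUc⟩ := hDU Ω hΩ
  set K' : ℝ≥0∞ := C * (ENNReal.ofReal (B0 * K) + ENNReal.ofReal (B * K)) with hK'
  have hK'fin : K' < ⊤ := ENNReal.mul_lt_top ENNReal.coe_lt_top
    (ENNReal.add_lt_top.2 ⟨ENNReal.ofReal_lt_top, ENNReal.ofReal_lt_top⟩)
  -- the main estimate
  have main : ∀ t : ℝ, 1 / 2 ≤ t → t ≤ 1 → ∀ (N : ℕ) (R : ℝ),
      ∑ n ∈ Finset.range N, ENNReal.ofReal (((1 / 2 : ℝ) ^ n) ^ α) *
        ∫⁻ z in Metric.closedBall 0 R, ‖U ψ Ω (t * (1 / 2) ^ n) z‖ₑ ≤ K' := by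
    intro t ht ht1 N R
    have ht0 : 0 < t := by linarith
    set s : ℕ → ℝ := fun n => t * (1 / 2) ^ n with hs
    have hs0 : ∀ n, 0 < s n := fun n => by simp only [hs]; positivity
    set c : ℕ → ℝ := fun n => ((1 / 2 : ℝ) ^ n) ^ α with hc
    have hc0 : ∀ n, 0 ≤ c n := fun n => by simp only [hc]; positivity
    set g : ℕ → ℂ → ℂ := fun n => (Metric.closedBall 0 R).indicator (fun z => sgn (U ψ Ω (s n) z))
      with hg
    have hgm : ∀ n, Measurable (g n) := fun n =>
      (sgn_meas.comp (hUc (s n)).measurable).indicator measurableSet_closedBall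
    have hg1 : ∀ n z, ‖g n z‖ ≤ 1 := by
      intro n z
      simp only [hg]
      by_cases hz : z ∈ Metric.closedBall 0 R
      · rw [indicator_of_mem hz]; exact sgn_norm _
      · rw [indicator_of_notMem hz]; simp
    have hgR : ∀ n z, R < ‖z‖ → g n z = 0 := by
      intro n z hz
      simp only [hg]
      rw [indicator_of_notMem]
      rw [mem_closedBall_zero_iff]; exact not_le.2 hz
    have hPn := fun n => hP ψ Ω (s n) R 1 (g n) hψ hΩ (hs0 n) (hgm n) (hg1 n) (hgR n)
    have hker : ∀ n, IsKer (G ψ (s n) (g n)) := fun n => ⟨(hPn n).1, (hPn n).2.1⟩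
    set f : ℂ → ℂ := fun w => ∑ n ∈ Finset.range N, (c n : ℂ) * G ψ (s n) (g n) w with hf
    have hfk : IsKer f := ker_sum _ fun n _ => ker_cmul _ (hker n)
    -- the pairing
    have hpair : pairing Ω f = ((∑ n ∈ Finset.range N, c n *
        ∫ z in Metric.closedBall 0 R, ‖U ψ Ω (s n) z‖ : ℝ) : ℂ) := by
      rw [hf, pairing_sum hD Ω (Finset.range N) (f := fun n w => (c n : ℂ) * G ψ (s n) (g n) w)
        fun n _ => ker_cmul _ (hker n)]
      push_cast
      refine Finset.sum_congr rfl fun n _ => ?_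
      rw [pairing_cmul Ω _ (hker n)]
      congr 1
      have h1 : pairing Ω (G ψ (s n) (g n)) = ∫ z, g n z * U ψ Ω (s n) z := (hPn n).2.2
      rw [h1]
      have h2 : ∀ z, g n z * U ψ Ω (s n) z =
          (Metric.closedBall 0 R).indicator (fun z => ((‖U ψ Ω (s n) z‖ : ℝ) : ℂ)) z := by
        intro z
        simp only [hg]
        by_cases hz : z ∈ Metric.closedBall 0 R
        · rw [indicator_of_mem hz, indicator_of_mem hz, sgn_mul]
        · rw [indicator_of_notMem hz, indicator_of_notMem hz, zero_mul]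
      simp_rw [h2]
      rw [integral_indicator measurableSet_closedBall]
      exact integral_complex_ofReal
    have hpairn : ‖pairing Ω f‖ₑ = ∑ n ∈ Finset.range N, ENNReal.ofReal (c n) *
        ∫⁻ z in Metric.closedBall 0 R, ‖U ψ Ω (s n) z‖ₑ := by
      rw [hpair, ← ofReal_norm_eq_enorm, Complex.norm_real, Real.norm_of_nonneg,
        ENNReal.ofReal_sum_of_nonneg]
      · refine Finset.sum_congr rfl fun n _ => ?_
        rw [ENNReal.ofReal_mul (hc0 n), ofReal_integral_norm_eq_lintegral_enorm]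
        exact ((hUc (s n)).continuousOn.integrableOn_compact (isCompact_closedBall 0 R))
      · exact fun n _ => mul_nonneg (hc0 n) (integral_nonneg fun _ => norm_nonneg _)
      · exact Finset.sum_nonneg fun n _ => mul_nonneg (hc0 n)
          (integral_nonneg fun _ => norm_nonneg _)
    -- the norm
    have hsum1 : ∑ n ∈ Finset.range N, c n ≤ K := by
      have h1 := hK 1 t N one_pos ht ht1
      rw [Real.one_rpow, mul_one] at h1
      refine le_trans (Finset.sum_le_sum fun n _ => ?_) h1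
      have h2 : (1 : ℝ) ≤ (1 / (t * (1 / 2 : ℝ) ^ n)) ^ k := by
        apply one_le_pow₀
        rw [le_div_iff₀ (hs0 n), one_mul]
        have : ((1 : ℝ) / 2) ^ n ≤ 1 := pow_le_one₀ (by norm_num) (by norm_num)
        calc t * (1 / 2) ^ n ≤ t * 1 := mul_le_mul_of_nonneg_left this ht0.le
          _ ≤ 1 := by linarith
      rw [min_eq_left h2, mul_one]
    have hGen : ∀ (j : ℕ) (h w : ℂ), ‖((fwdDiff h)^[j] f) w‖ₑ ≤ ∑ n ∈ Finset.range N,
        ENNReal.ofReal (c n) * ‖((fwdDiff h)^[j] (G ψ (s n) (g n))) w‖ₑ := by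
      intro j h w
      rw [hf, fwdDiff_sum]
      refine (enorm_sum_le _ _).trans (Finset.sum_le_sum fun n _ => ?_)
      rw [enorm_mul]
      gcongr
      rw [← ofReal_norm_eq_enorm, Complex.norm_real, Real.norm_of_nonneg (hc0 n)]
    have hn1 : (⨆ z, ‖f z‖ₑ) ≤ ENNReal.ofReal (B0 * K) := by
      refine iSup_le fun w => ?_
      have h1 := hGen 0 0 w
      simp only [Function.iterate_zero, id] at h1
      refine h1.trans ?_
      calc _ ≤ ∑ n ∈ Finset.range N, ENNReal.ofReal (c n) * ENNReal.ofReal B0 := by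
            refine Finset.sum_le_sum fun n _ => ?_
            gcongr
            have h2 := G_diff_le hψ (hs0 n) (hgm n) (hg1 n) 0 0 w (b := ENNReal.ofReal B0)
              (by simpa using hB0 (-0) (s n) (hs0 n))
            simpa using h2
        _ = ENNReal.ofReal (B0 * ∑ n ∈ Finset.range N, c n) := by
            rw [← Finset.sum_mul, ← ENNReal.ofReal_sum_of_nonneg fun n _ => hc0 n, mul_comm,
              ← ENNReal.ofReal_mul hB00]
        _ ≤ _ := by gcongr
    have hn2 : (⨆ (h : ℂ) (_ : h ≠ 0), (⨆ z, ‖((fwdDiff h)^[k] f) z‖ₑ) / ‖h‖ₑ ^ α) ≤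
        ENNReal.ofReal (B * K) := by
      refine iSup₂_le fun h hh => ?_
      have hh' : 0 < ‖h‖ := norm_pos_iff.2 hh
      have h3 : (‖h‖ₑ ^ α) ≠ 0 := by simp [ENNReal.rpow_eq_zero_iff, hh]
      have h4 : (‖h‖ₑ ^ α) ≠ ⊤ := by simp [ENNReal.rpow_eq_top_iff, hh]
      rw [ENNReal.div_le_iff h3 h4]
      refine iSup_le fun w => ?_
      refine (hGen k h w).trans ?_
      calc _ ≤ ∑ n ∈ Finset.range N, ENNReal.ofReal (c n) *
            ENNReal.ofReal (B * min 1 ((‖h‖ / s n) ^ k)) := by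
            refine Finset.sum_le_sum fun n _ => ?_
            gcongr
            refine G_diff_le hψ (hs0 n) (hgm n) (hg1 n) k h w ?_
            simpa using hB (-h) (s n) (hs0 n)
        _ = ENNReal.ofReal (B * ∑ n ∈ Finset.range N, c n * min 1 ((‖h‖ / s n) ^ k)) := by
            rw [Finset.mul_sum, ENNReal.ofReal_sum_of_nonneg]
            · refine Finset.sum_congr rfl fun n _ => ?_
              rw [← ENNReal.ofReal_mul (hc0 n)]
              congr 1; ring
            · intro n _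
              have := hc0 n
              have h5 : 0 ≤ min 1 ((‖h‖ / s n) ^ k) :=
                le_min zero_le_one (pow_nonneg (div_nonneg (norm_nonneg _) (hs0 n).le) _)
              positivity
        _ ≤ ENNReal.ofReal (B * (K * ‖h‖ ^ α)) := by
            gcongr
            exact hK ‖h‖ t N hh' ht ht1
        _ = ENNReal.ofReal (B * K) * ‖h‖ₑ ^ α := by
            rw [← mul_assoc, ENNReal.ofReal_mul (by positivity), ← ENNReal.ofReal_rpow_of_pos hh',
              ofReal_norm_eq_enorm]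
    have hadm := hC f hfk.1 hfk.2
    rw [hpairn] at hadm
    refine hadm.trans ?_
    rw [hK']
    gcongr
    exact add_le_add hn1 hn2
  -- the whole plane
  have main2 : ∀ t : ℝ, 1 / 2 ≤ t → t ≤ 1 →
      ∑' n : ℕ, ENNReal.ofReal (((1 / 2 : ℝ) ^ n) ^ α) * V ψ Ω (t * (1 / 2) ^ n) ≤ K' := by
    intro t ht ht1
    rw [ENNReal.tsum_eq_iSup_nat]
    refine iSup_le fun N => ?_
    have hV : ∀ s : ℝ, V ψ Ω s = ⨆ m : ℕ, ∫⁻ z in Metric.closedBall 0 (m : ℝ), ‖U ψ Ω s z‖ₑ := by
      intro s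
      unfold V
      rw [← setLIntegral_iUnion_of_directed]
      · rw [Metric.iUnion_closedBall_nat, setLIntegral_univ]
      · exact Monotone.directed_le fun a b hab =>
          Metric.closedBall_subset_closedBall (by exact_mod_cast hab)
    have hm : ∀ n : ℕ, ENNReal.ofReal (((1 / 2 : ℝ) ^ n) ^ α) * V ψ Ω (t * (1 / 2) ^ n) =
        ⨆ m : ℕ, ENNReal.ofReal (((1 / 2 : ℝ) ^ n) ^ α) *
          ∫⁻ z in Metric.closedBall 0 (m : ℝ), ‖U ψ Ω (t * (1 / 2) ^ n) z‖ₑ := by
      intro n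
      rw [hV, ENNReal.mul_iSup]
    simp_rw [hm]
    rw [ENNReal.finsetSum_iSup_of_monotone]
    · exact iSup_le fun m => main t ht ht1 N m
    · intro n a b hab
      simp only
      gcongr
  -- the integral
  have hF : Measurable fun s : ℝ => ENNReal.ofReal (s ^ (α - 1)) * V ψ Ω s :=
    (ENNReal.measurable_ofReal.comp (measurable_id.pow_const (α - 1))).mul hVm
  have h1 := hDy _ 1 hF one_pos
  have h2 : ∫⁻ s in Ioc (0 : ℝ) 1, ENNReal.ofReal (s ^ (α - 1)) * V ψ Ω s < ⊤ := by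
    rw [← h1]
    calc _ ≤ ∫⁻ t in Ioc ((1 : ℝ) / 2) 1, 2 * K' := by
          refine setLIntegral_mono measurable_const fun t ht => ?_
          have ht0 : 0 < t := by linarith [ht.1]
          calc _ ≤ ∑' m : ℕ, 2 * (ENNReal.ofReal (((1 / 2 : ℝ) ^ m) ^ α) *
                V ψ Ω (t * (1 / 2) ^ m)) := by
                refine ENNReal.tsum_le_tsum fun m => ?_
                rw [← mul_assoc, ← mul_assoc]
                gcongr ?_ * _
                rw [← ENNReal.ofReal_mul (by positivity), show (2 : ℝ≥0∞) = ENNReal.ofReal 2 by simp,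
                  ← ENNReal.ofReal_mul (by norm_num)]
                apply ENNReal.ofReal_le_ofReal
                rw [Real.mul_rpow ht0.le (by positivity)]
                have h5 : t ^ (α - 1) ≤ 2 := by
                  calc t ^ (α - 1) ≤ t ^ (-1 : ℝ) :=
                        Real.rpow_le_rpow_of_exponent_ge ht0 ht.2 (by linarith)
                    _ = t⁻¹ := Real.rpow_neg_one t
                    _ ≤ 2 := by
                        rw [inv_le_comm₀ ht0 (by norm_num)]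
                        linarith [ht.1]
                have h6 : ((1 / 2 : ℝ) ^ m) * ((1 / 2 : ℝ) ^ m) ^ (α - 1) = ((1 / 2 : ℝ) ^ m) ^ α := by
                  rw [← Real.rpow_one_add' (by positivity) (by linarith)]
                  congr 1; ring
                calc (1 / 2 : ℝ) ^ m * (t ^ (α - 1) * ((1 / 2 : ℝ) ^ m) ^ (α - 1))
                    = t ^ (α - 1) * ((1 / 2 : ℝ) ^ m * ((1 / 2 : ℝ) ^ m) ^ (α - 1)) := by ring
                  _ ≤ 2 * ((1 / 2 : ℝ) ^ m) ^ α := by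
                      rw [h6]
                      exact mul_le_mul_of_nonneg_right h5 (by positivity)
            _ = 2 * ∑' m : ℕ, (ENNReal.ofReal (((1 / 2 : ℝ) ^ m) ^ α) *
                V ψ Ω (t * (1 / 2) ^ m)) := ENNReal.tsum_mul_left
            _ ≤ 2 * K' := by
                gcongr
                exact main2 t ht.1.le ht.2
      _ < ⊤ := by
          rw [setLIntegral_const]
          refine ENNReal.mul_lt_top (ENNReal.mul_lt_top (by simp) hK'fin) ?_
          simp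
  exact (lintegral_mono_set Ioo_subset_Ioc_self).trans_lt h2

end Pool.Agent.U243.DB
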