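import Pool.Agent.U243.DB.Suf3
import Pool.Agent.U243.DB.Nec

/-!
# Assembly
-/

set_option autoImplicit false

open MeasureTheory Set Filter Topology
open scoped ENNReal NNReal ContDiff

namespace Pool.Agent.U243.DB

lemma conj_ker {η : ℂ → ℝ} (hη : IsMollifier η) :
    IsKer (fun z => (starRingEnd ℂ) z * (η z : ℂ)) :=
  ⟨Complex.conjCLE.contDiff.mul (castKer hη).1, (castKer hη).2.mul_left⟩

theorem variation_iff (hDi : S_DIFF) (hSu : S_SUM) (hDy : S_DYAD) (hP : S_PAIR) (hD : S_DBSC)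
    (hSc : S_SCALE) (hV : S_VARV) {α : ℝ} (hα : 0 < α) {k : ℕ} (hk : α < k) {Ω : Set ℂ}
    (hΩ : MeasurableSet Ω) {η : ℂ → ℝ} (hη : IsMollifier η) :
    IsAdmissible α k Ω ↔
      ∫⁻ s in Ioo (0 : ℝ) 1, ENNReal.ofReal (s ^ (α - 1)) * variation η Ω s < ⊤ := by
  constructor
  · intro h
    have h1 := t_NEC hDi hSu hDy hP hD α k Ω (fun z => (η z : ℂ)) hα hk hΩ (castKer hη) h
    have h2 : ∫⁻ s in Ioo (0 : ℝ) 1, ENNReal.ofReal (s ^ (α - 1)) * variation η Ω s ≤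
        4 * ∫⁻ s in Ioo (0 : ℝ) 1, ENNReal.ofReal (s ^ (α - 1)) * V (fun z => (η z : ℂ)) Ω s := by
      rw [← lintegral_const_mul' _ _ (by simp)]
      refine setLIntegral_mono' measurableSet_Ioo fun s hs => ?_
      rw [mul_left_comm]
      gcongr
      exact (hV η Ω s hη hΩ hs.1).2
    exact h2.trans_lt (ENNReal.mul_lt_top (by simp) h1)
  · intro h
    refine t_SUF hP hD hSc α k Ω η hα hk hΩ hη (lt_of_le_of_lt ?_ h)
    refine setLIntegral_mono' measurableSet_Ioo fun s hs => ?_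
    gcongr
    exact (hV η Ω s hη hΩ hs.1).1

theorem perimeter_iff (hDi : S_DIFF) (hSu : S_SUM) (hDy : S_DYAD) (hP : S_PAIR) (hD : S_DBSC)
    (hSc : S_SCALE) (hV : S_VARV) (hE : S_EXRAD) (hA : S_APPROX) (hM : S_MODUL) (hPe : S_PERIM)
    (hF : S_FRAC1) {α : ℝ} (hα : 0 < α) (hα1 : α < 1) {k : ℕ} (hk : α < k) {Ω : Set ℂ}
    (hΩ : MeasurableSet Ω) : IsAdmissible α k Ω ↔ fractionalPerimeter α Ω < ⊤ := by
  obtain ⟨η, hη⟩ := hE
  have hm := hη.mollifier
  constructor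
  · intro h
    have h1 := t_NEC hDi hSu hDy hP hD α k Ω (fun z => (η z : ℂ)) hα hk hΩ (castKer hm) h
    have h2 := t_NEC hDi hSu hDy hP hD α k Ω _ hα hk hΩ (conj_ker hm) h
    refine hPe Ω α (fun r => 4 * V (fun z => (starRingEnd ℂ) z * (η z : ℂ)) Ω r)
      (fun r => 4 * V (fun z => (η z : ℂ)) Ω r) hΩ hα hα1 ?_ ?_ ?_ ?_ ?_
    · exact ((hD _ (conj_ker hm)).2.2.2 Ω hΩ).2.1.const_mul 4
    · exact ((hD _ (castKer hm)).2.2.2 Ω hΩ).2.1.const_mul 4
    · intro h hh _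
      refine (hM η Ω h ‖h‖ hm hΩ hh).trans ?_
      have h3 := hA η Ω ‖h‖ hη hΩ hh
      have h4 := (hV η Ω ‖h‖ hm hΩ hh).2
      refine add_le_add ?_ ?_
      · rw [lintegral_const_mul' _ _ (by simp)]
        calc 2 * _ ≤ 2 * (2 * ∫⁻ r in Ioo 0 ‖h‖,
              V (fun z => (starRingEnd ℂ) z * (η z : ℂ)) Ω r) := by gcongr
          _ = _ := by rw [← mul_assoc]; norm_num
      · rw [ofReal_norm_eq_enorm]
        gcongr
    · have e : ∀ s : ℝ, ENNReal.ofReal (s ^ (α - 1)) *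
          (4 * V (fun z => (starRingEnd ℂ) z * (η z : ℂ)) Ω s) =
          4 * (ENNReal.ofReal (s ^ (α - 1)) * V (fun z => (starRingEnd ℂ) z * (η z : ℂ)) Ω s) :=
        fun s => by ring
      simp_rw [e]
      rw [lintegral_const_mul' _ _ (by simp)]
      exact ENNReal.mul_lt_top (by simp) h2
    · have e : ∀ s : ℝ, ENNReal.ofReal (s ^ (α - 1)) * (4 * V (fun z => (η z : ℂ)) Ω s) =
          4 * (ENNReal.ofReal (s ^ (α - 1)) * V (fun z => (η z : ℂ)) Ω s) :=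
        fun s => by ring
      simp_rw [e]
      rw [lintegral_const_mul' _ _ (by simp)]
      exact ENNReal.mul_lt_top (by simp) h1
  · intro h
    refine t_SUF hP hD hSc α k Ω η hα hk hΩ hm ?_
    refine hF (fun z => (η z : ℂ)) Ω α (castKer hm) (fun z hz => ?_) hΩ hα1 h
    exact_mod_cast hη.support z hz

end Pool.Agent.U243.DB
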