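import Pool.Agent.U243.DB.Defs

/-!
# Statements of the parts of the proof
-/

set_option autoImplicit false

open MeasureTheory Set
open scoped ENNReal NNReal ContDiff

namespace Pool.Agent.U243.DB

/-- A smooth function with compact support. -/
def IsKer (ψ : ℂ → ℂ) : Prop := ContDiff ℝ ∞ ψ ∧ HasCompactSupport ψ

/-- The scaled kernel `s⁻² ψ(z/s)`. -/
noncomputable def sc (ψ : ℂ → ℂ) (s : ℝ) (z : ℂ) : ℂ := ((s⁻¹ ^ 2 : ℝ) : ℂ) * ψ (s⁻¹ • z)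

/-- The convolution of `∂χ_Ω/∂z̄` with the scaled kernel. -/
noncomputable def U (ψ : ℂ → ℂ) (Ω : Set ℂ) (s : ℝ) (z : ℂ) : ℂ :=
  ∫ w in Ω, dbar (sc ψ s) (z - w)

/-- Its `L¹` norm. -/
noncomputable def V (ψ : ℂ → ℂ) (Ω : Set ℂ) (s : ℝ) : ℝ≥0∞ := ∫⁻ z, ‖U ψ Ω s z‖ₑ

/-- DIFF. -/
def S_DIFF : Prop := ∀ (ψ : ℂ → ℂ) (k : ℕ), IsKer ψ → ∃ B : ℝ, 0 ≤ B ∧ ∀ (h : ℂ) (s : ℝ), 0 < s →
  ∫⁻ z, ‖((fwdDiff h)^[k] (sc ψ s)) z‖ₑ ≤ ENNReal.ofReal (B * min 1 ((‖h‖ / s) ^ k))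

/-- SUM. -/
def S_SUM : Prop := ∀ (α : ℝ) (k : ℕ), 0 < α → α < k → ∃ C : ℝ, 0 ≤ C ∧
  ∀ (x t : ℝ) (N : ℕ), 0 < x → 1 / 2 ≤ t → t ≤ 1 →
    ∑ n ∈ Finset.range N, ((1 / 2 : ℝ) ^ n) ^ α * min 1 ((x / (t * (1 / 2 : ℝ) ^ n)) ^ k) ≤ C * x ^ α

/-- DYAD. -/
def S_DYAD : Prop := ∀ (F : ℝ → ℝ≥0∞) (a : ℝ), Measurable F → 0 < a →
  ∫⁻ t in Ioc (a / 2) a, ∑' m : ℕ, ENNReal.ofReal ((1 / 2 : ℝ) ^ m) * F (t * (1 / 2 : ℝ) ^ m) =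
    ∫⁻ s in Ioc 0 a, F s

/-- SCALE: a good scale. -/
def S_SCALE : Prop := ∀ (α : ℝ) (k : ℕ) (F : ℝ → ℝ≥0∞), Measurable F → 0 < α → 0 < k →
  ∫⁻ s in Ioo (0 : ℝ) 1, ENNReal.ofReal (s ^ (α - 1)) * F s < ⊤ →
  ∃ t : ℝ, 0 < t ∧ t * k ≤ 1 ∧ ∀ j ∈ Finset.range k,
    ∑' m : ℕ, ENNReal.ofReal (((1 / 2 : ℝ) ^ m) ^ α) * F ((j + 1) * (t * (1 / 2 : ℝ) ^ m)) < ⊤

/-- DBSC: the derivative of the scaled kernel, and measurability. -/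
def S_DBSC : Prop := ∀ (ψ : ℂ → ℂ), IsKer ψ →
  (∀ (s : ℝ) (z : ℂ), dbar (sc ψ s) z = ((s⁻¹ ^ 3 : ℝ) : ℂ) * dbar ψ (s⁻¹ • z)) ∧
  IsKer (dbar ψ) ∧ ∫ z, dbar ψ z = 0 ∧
  ∀ Ω : Set ℂ, MeasurableSet Ω → Measurable (fun p : ℝ × ℂ => U ψ Ω p.1 p.2) ∧
    Measurable (V ψ Ω) ∧ ∀ s : ℝ, Continuous (U ψ Ω s)

/-- FRAC1: a finite local fractional perimeter gives a finite integral of `s ^ (α - 1) V(s)`. -/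
def S_FRAC1 : Prop := ∀ (ψ : ℂ → ℂ) (Ω : Set ℂ) (α : ℝ), IsKer ψ → (∀ z, 1 ≤ ‖z‖ → ψ z = 0) →
  MeasurableSet Ω → α < 1 → fractionalPerimeter α Ω < ⊤ →
  ∫⁻ s in Ioo (0 : ℝ) 1, ENNReal.ofReal (s ^ (α - 1)) * V ψ Ω s < ⊤

/-- `η` is a smooth radial function with integral one supported in the unit disc. -/
structure IsRadial (η : ℂ → ℝ) : Prop where
  mollifier : IsMollifier η
  support : ∀ z, 1 ≤ ‖z‖ → η z = 0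
  radial : ∀ a z : ℂ, ‖a‖ = 1 → η (a * z) = η z

/-- EXRAD. -/
def S_EXRAD : Prop := ∃ η : ℂ → ℝ, IsRadial η

/-- The `L¹` modulus of continuity of the indicator function. -/
noncomputable def modulus (Ω : Set ℂ) (h : ℂ) : ℝ≥0∞ :=
  ∫⁻ z, ‖Ω.indicator (fun _ => (1 : ℝ)) (z + h) - Ω.indicator (fun _ => (1 : ℝ)) z‖ₑ

/-- APPROX: `‖χ - χ * η_s‖₁ ≤ 2 ∫_0^s V_{z̄ η}(r) dr`. -/
def S_APPROX : Prop := ∀ (η : ℂ → ℝ) (Ω : Set ℂ) (s : ℝ), IsRadial η → MeasurableSet Ω → 0 < s →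
  ∫⁻ z, ‖Ω.indicator (fun _ => (1 : ℝ)) z - density η Ω s z‖ₑ ≤
    2 * ∫⁻ r in Ioo 0 s, V (fun z => (starRingEnd ℂ) z * (η z : ℂ)) Ω r

/-- MODUL. -/
def S_MODUL : Prop := ∀ (η : ℂ → ℝ) (Ω : Set ℂ) (h : ℂ) (s : ℝ), IsMollifier η → MeasurableSet Ω →
  0 < s → modulus Ω h ≤ 2 * (∫⁻ z, ‖Ω.indicator (fun _ => (1 : ℝ)) z - density η Ω s z‖ₑ) +
    ‖h‖ₑ * variation η Ω s

/-- VARV: the total variation of the density and the function `V`. -/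
def S_VARV : Prop := ∀ (η : ℂ → ℝ) (Ω : Set ℂ) (s : ℝ), IsMollifier η → MeasurableSet Ω → 0 < s →
  V (fun z => (η z : ℂ)) Ω s ≤ variation η Ω s ∧ variation η Ω s ≤ 4 * V (fun z => (η z : ℂ)) Ω s

/-- PERIM: the local fractional perimeter and the modulus of continuity. -/
def S_PERIM : Prop := ∀ (Ω : Set ℂ) (α : ℝ) (W W' : ℝ → ℝ≥0∞), MeasurableSet Ω → 0 < α → α < 1 →
  Measurable W → Measurable W' →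
  (∀ h : ℂ, 0 < ‖h‖ → ‖h‖ < 1 →
    modulus Ω h ≤ (∫⁻ r in Ioo 0 ‖h‖, W r) + ENNReal.ofReal ‖h‖ * W' ‖h‖) →
  ∫⁻ s in Ioo (0 : ℝ) 1, ENNReal.ofReal (s ^ (α - 1)) * W s < ⊤ →
  ∫⁻ s in Ioo (0 : ℝ) 1, ENNReal.ofReal (s ^ (α - 1)) * W' s < ⊤ →
  fractionalPerimeter α Ω < ⊤

/-- PAIR: the duality. -/
def S_PAIR : Prop := ∀ (ψ : ℂ → ℂ) (Ω : Set ℂ) (s R M : ℝ) (g : ℂ → ℂ), IsKer ψ → MeasurableSet Ω →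
  0 < s → Measurable g → (∀ z, ‖g z‖ ≤ M) → (∀ z, R < ‖z‖ → g z = 0) →
  ContDiff ℝ ∞ (fun w => ∫ z, g z * sc ψ s (z - w)) ∧
  HasCompactSupport (fun w => ∫ z, g z * sc ψ s (z - w)) ∧
  pairing Ω (fun w => ∫ z, g z * sc ψ s (z - w)) = ∫ z, g z * U ψ Ω s z

/-- NEC: necessity of the condition. -/
def S_NEC : Prop := ∀ (α : ℝ) (k : ℕ) (Ω : Set ℂ) (ψ : ℂ → ℂ), 0 < α → α < k → MeasurableSet Ω →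
  IsKer ψ → IsAdmissible α k Ω →
  ∫⁻ s in Ioo (0 : ℝ) 1, ENNReal.ofReal (s ^ (α - 1)) * V ψ Ω s < ⊤

/-- SUF: sufficiency of the condition. -/
def S_SUF : Prop := ∀ (α : ℝ) (k : ℕ) (Ω : Set ℂ) (η : ℂ → ℝ), 0 < α → α < k → MeasurableSet Ω →
  IsMollifier η →
  ∫⁻ s in Ioo (0 : ℝ) 1, ENNReal.ofReal (s ^ (α - 1)) * V (fun z => (η z : ℂ)) Ω s < ⊤ →
  IsAdmissible α k Ω

end Pool.Agent.U243.DB
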