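import Pool.Agent.U243.DB.Stm

/-!
# Averages of functions
-/

set_option autoImplicit false

open MeasureTheory Set Filter Topology
open scoped ENNReal NNReal ContDiff

namespace Pool.Agent.U243.DB

/-- the average `∫ η(y) f(z + s y) dy` -/
noncomputable def T (η : ℂ → ℝ) (s : ℝ) (f : ℂ → ℂ) (z : ℂ) : ℂ := ∫ y, (η y : ℂ) * f (z + s • y)

/-- the L1 norm of the kernel -/
noncomputable def nrm (η : ℂ → ℝ) : ℝ := ∫ y, |η y|

section basic

variable {η : ℂ → ℝ} (hη : IsMollifier η)

include hη

lemma eta_int : Integrable η :=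
  hη.smooth.continuous.integrable_of_hasCompactSupport hη.compact

lemma etaC_int : Integrable (fun y => (η y : ℂ)) := (eta_int hη).ofReal

lemma abs_int : Integrable (fun y => |η y|) := (eta_int hη).abs

lemma nrm_nonneg : 0 ≤ nrm η := integral_nonneg fun _ => abs_nonneg _

lemma T_int {f : ℂ → ℂ} (hf : Continuous f) (s : ℝ) (z : ℂ) :
    Integrable (fun y => (η y : ℂ) * f (z + s • y)) := by
  apply Continuous.integrable_of_hasCompactSupport
  · have := hη.smooth.continuous
    fun_prop
  · apply HasCompactSupport.mul_right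
    exact hη.compact.comp_left (g := fun x : ℝ => (x : ℂ)) (by simp)

lemma T_norm_le {f : ℂ → ℂ} {M : ℝ} (hM : ∀ z, ‖f z‖ ≤ M) (s : ℝ) (z : ℂ) :
    ‖T η s f z‖ ≤ nrm η * M := by
  unfold T nrm
  rw [← integral_mul_const]
  refine norm_integral_le_of_norm_le ((abs_int hη).mul_const M) (Eventually.of_forall fun y => ?_)
  rw [norm_mul, Complex.norm_real, Real.norm_eq_abs]
  exact mul_le_mul_of_nonneg_left (hM _) (abs_nonneg _)

lemma T_sub {f g : ℂ → ℂ} (hf : Continuous f) (hg : Continuous g) (s : ℝ) (z : ℂ) :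
    T η s (fun w => f w - g w) z = T η s f z - T η s g z := by
  unfold T
  rw [← integral_sub (T_int hη hf s z) (T_int hη hg s z)]
  congr 1; ext y; ring

lemma T_add {f g : ℂ → ℂ} (hf : Continuous f) (hg : Continuous g) (s : ℝ) (z : ℂ) :
    T η s (fun w => f w + g w) z = T η s f z + T η s g z := by
  unfold T
  rw [← integral_add (T_int hη hf s z) (T_int hη hg s z)]
  congr 1; ext y; ring

omit hη in
lemma T_const_mul {f : ℂ → ℂ} (c : ℂ) (s : ℝ) (z : ℂ) :
    T η s (fun w => c * f w) z = c * T η s f z := by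
  unfold T
  rw [← integral_const_mul]
  congr 1; ext y; ring

lemma T_sum {ι : Type} (I : Finset ι) {f : ι → ℂ → ℂ} (hf : ∀ i, Continuous (f i)) (s : ℝ) (z : ℂ) :
    T η s (fun w => ∑ i ∈ I, f i w) z = ∑ i ∈ I, T η s (f i) z := by
  unfold T
  rw [← integral_finsetSum I fun i _ => T_int hη (hf i) s z]
  congr 1; ext y; rw [Finset.mul_sum]

/-- commutation -/
lemma T_comm {f : ℂ → ℂ} (hf : Continuous f) {M : ℝ} (hM : ∀ z, ‖f z‖ ≤ M) (a b : ℝ) (z : ℂ) :
    T η a (T η b f) z = T η b (T η a f) z := by
  have h1 : T η a (T η b f) z = ∫ y, ∫ x, (η y : ℂ) * ((η x : ℂ) * f (z + a • y + b • x)) := by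
    unfold T
    congr 1; ext y; rw [integral_const_mul]
  have h2 : T η b (T η a f) z = ∫ x, ∫ y, (η y : ℂ) * ((η x : ℂ) * f (z + a • y + b • x)) := by
    unfold T
    congr 1; ext x
    rw [← integral_const_mul]
    congr 1; ext y
    rw [show z + b • x + a • y = z + a • y + b • x by ring]
    ring
  rw [h1, h2]
  apply integral_integral_swap
  have hb : Integrable (fun p : ℂ × ℂ => |η p.1| * (|η p.2| * M)) (volume.prod volume) :=
    (abs_int hη).mul_prod ((abs_int hη).mul_const M)
  refine hb.mono' ?_ (Eventually.of_forall fun p => ?_)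
  · have := hη.smooth.continuous
    apply Continuous.aestronglyMeasurable
    simp only [Function.uncurry_def]
    fun_prop
  · simp only [Function.uncurry_def]
    rw [norm_mul, norm_mul, Complex.norm_real, Complex.norm_real, Real.norm_eq_abs,
      Real.norm_eq_abs]
    gcongr
    exact hM _

omit hη in
/-- change of variables -/
lemma T_eq {f : ℂ → ℂ} {s : ℝ} (hs : 0 < s) (w : ℂ) :
    T η s f w = ∫ z, f z * sc (fun z => (η z : ℂ)) s (z - w) := by
  have h1 : ∫ z, f z * sc (fun z => (η z : ℂ)) s (z - w) =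
      ∫ z, f (z + w) * sc (fun z => (η z : ℂ)) s z := by
    rw [← integral_sub_right_eq_self (fun z => f (z + w) * sc (fun z => (η z : ℂ)) s z) w]
    congr 1; ext z; simp
  have h2 := Measure.integral_comp_smul (volume : Measure ℂ)
    (fun z => f (z + w) * sc (fun z => (η z : ℂ)) s z) s
  rw [Complex.finrank_real_complex, abs_of_nonneg (by positivity)] at h2
  have h3 : ∫ z, f (z + w) * sc (fun z => (η z : ℂ)) s z =
      (s ^ 2) • ∫ x, f (s • x + w) * sc (fun z => (η z : ℂ)) s (s • x) := by
    rw [h2, smul_smul, mul_inv_cancel₀ (by positivity), one_smul]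
  rw [h1, h3, ← integral_smul]
  unfold T sc
  congr 1; ext y
  have : (s : ℂ) ≠ 0 := by exact_mod_cast hs.ne'
  rw [smul_smul, inv_mul_cancel₀ hs.ne', one_smul, Complex.real_smul, Complex.real_smul]
  push_cast
  field_simp
  ring_nf

lemma T_hasFDerivAt {f : ℂ → ℂ} (hf : IsKer f) (s : ℝ) (z : ℂ) :
    HasFDerivAt (T η s f) (∫ y, (η y : ℂ) • fderiv ℝ f (z + s • y)) z := by
  have hc : Continuous (fderiv ℝ f) := hf.1.continuous_fderiv (by simp)
  obtain ⟨M, hM⟩ := (hf.2.fderiv (𝕜 := ℝ)).exists_bound_of_continuous hc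
  have hηc := hη.smooth.continuous
  have hfc := hf.1.continuous
  refine hasFDerivAt_integral_of_dominated_of_fderiv_le (s := univ)
    (F := fun z y => (η y : ℂ) * f (z + s • y))
    (F' := fun z y => (η y : ℂ) • fderiv ℝ f (z + s • y)) (bound := fun y => |η y| * M)
    univ_mem ?_ ?_ ?_ ?_ ?_ ?_
  · exact Eventually.of_forall fun z => (T_int hη hfc s z).aestronglyMeasurable
  · exact T_int hη hfc s z
  · apply Continuous.aestronglyMeasurable
    fun_prop
  · refine Eventually.of_forall fun y z _ => ?_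
    rw [norm_smul, Complex.norm_real, Real.norm_eq_abs]
    exact mul_le_mul_of_nonneg_left (hM _) (abs_nonneg _)
  · exact (abs_int hη).mul_const M
  · refine Eventually.of_forall fun y z _ => ?_
    have h1 : HasFDerivAt f (fderiv ℝ f (z + s • y)) (z + s • y) :=
      (hf.1.differentiable (by simp)).differentiableAt.hasFDerivAt
    have h2 : HasFDerivAt (fun z : ℂ => z + s • y) (ContinuousLinearMap.id ℝ ℂ) z :=
      (hasFDerivAt_id z).add_const _
    have h3 := (h1.comp z h2).const_mul (η y : ℂ)
    simpa using h3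

lemma dbar_T {f : ℂ → ℂ} (hf : IsKer f) (s : ℝ) (z : ℂ) :
    dbar (T η s f) z = T η s (dbar f) z := by
  have hc : Continuous (fderiv ℝ f) := hf.1.continuous_fderiv (by simp)
  have hηc := hη.smooth.continuous
  obtain ⟨M, hM⟩ := (hf.2.fderiv (𝕜 := ℝ)).exists_bound_of_continuous hc
  have hint : Integrable (fun y => (η y : ℂ) • fderiv ℝ f (z + s • y)) := by
    refine ((abs_int hη).mul_const M).mono' (Continuous.aestronglyMeasurable (by fun_prop))
      (Eventually.of_forall fun y => ?_)
    rw [norm_smul, Complex.norm_real, Real.norm_eq_abs]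
    exact mul_le_mul_of_nonneg_left (hM _) (abs_nonneg _)
  unfold dbar
  rw [(T_hasFDerivAt hη hf s z).fderiv]
  rw [ContinuousLinearMap.integral_apply hint, ContinuousLinearMap.integral_apply hint]
  unfold T
  rw [← integral_const_mul, ← integral_add, ← integral_const_mul]
  · congr 1; ext y
    simp only [ContinuousLinearMap.smul_apply, smul_eq_mul]
    ring
  · exact hint.apply_continuousLinearMap 1
  · exact (hint.apply_continuousLinearMap Complex.I).const_mul _

end basic

end Pool.Agent.U243.DB
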