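import Pool.Agent.U243.DB.Suf1

/-!
# Combinations of averages
-/

set_option autoImplicit false

open MeasureTheory Set Filter Topology
open scoped ENNReal NNReal ContDiff

namespace Pool.Agent.U243.DB

/-- the coefficients -/
noncomputable def cf (k j : ℕ) : ℂ := (-1) ^ j * (k.choose (j + 1) : ℂ)

/-- the combination of averages -/
noncomputable def A (η : ℂ → ℝ) (k : ℕ) (s : ℝ) (f : ℂ → ℂ) (z : ℂ) : ℂ :=
  ∑ j ∈ Finset.range k, cf k j * T η ((j + 1) * s) f z

/-- the sum of the absolute values of the coefficients -/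
noncomputable def csum (k : ℕ) : ℝ := ∑ j ∈ Finset.range k, ‖cf k j‖

lemma csum_nonneg (k : ℕ) : 0 ≤ csum k := Finset.sum_nonneg fun _ _ => norm_nonneg _

lemma ker_zero : IsKer (fun _ => (0 : ℂ)) :=
  ⟨contDiff_const, HasCompactSupport.zero⟩

lemma ker_add {f g : ℂ → ℂ} (hf : IsKer f) (hg : IsKer g) : IsKer (fun z => f z + g z) :=
  ⟨hf.1.add hg.1, hf.2.add hg.2⟩

lemma ker_cmul {f : ℂ → ℂ} (c : ℂ) (hf : IsKer f) : IsKer (fun z => c * f z) :=
  ⟨contDiff_const.mul hf.1, hf.2.mul_left⟩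

lemma ker_sub {f g : ℂ → ℂ} (hf : IsKer f) (hg : IsKer g) : IsKer (fun z => f z - g z) := by
  have := ker_add hf (ker_cmul (-1) hg)
  convert this using 2
  ring

lemma ker_sum {ι : Type} (I : Finset ι) {f : ι → ℂ → ℂ} (hf : ∀ i ∈ I, IsKer (f i)) :
    IsKer (fun z => ∑ i ∈ I, f i z) := by
  classical
  induction I using Finset.induction_on with
  | empty => simpa using ker_zero
  | insert a J ha ih =>
    simp only [Finset.sum_insert ha]
    exact ker_add (hf a (Finset.mem_insert_self _ _))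
      (ih fun i hi => hf i (Finset.mem_insert_of_mem hi))

lemma dbar_add {f g : ℂ → ℂ} (hf : IsKer f) (hg : IsKer g) (z : ℂ) :
    dbar (fun z => f z + g z) z = dbar f z + dbar g z := by
  have h1 := (hf.1.differentiable (by simp)).differentiableAt (x := z)
  have h2 := (hg.1.differentiable (by simp)).differentiableAt (x := z)
  unfold dbar
  rw [fderiv_fun_add h1 h2]
  simp only [ContinuousLinearMap.add_apply]
  ring

lemma dbar_cmul {f : ℂ → ℂ} (c : ℂ) (hf : IsKer f) (z : ℂ) :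
    dbar (fun z => c * f z) z = c * dbar f z := by
  have h1 := (hf.1.differentiable (by simp)).differentiableAt (x := z)
  unfold dbar
  rw [fderiv_const_mul h1]
  simp only [ContinuousLinearMap.smul_apply, smul_eq_mul]
  ring

lemma dbar_sum {ι : Type} (I : Finset ι) {f : ι → ℂ → ℂ} (hf : ∀ i ∈ I, IsKer (f i)) (z : ℂ) :
    dbar (fun z => ∑ i ∈ I, f i z) z = ∑ i ∈ I, dbar (f i) z := by
  classical
  induction I using Finset.induction_on with
  | empty => simp [dbar]
  | insert a J ha ih =>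
    simp only [Finset.sum_insert ha]
    rw [dbar_add (hf a (Finset.mem_insert_self _ _))
      (ker_sum J fun i hi => hf i (Finset.mem_insert_of_mem hi)),
      ih fun i hi => hf i (Finset.mem_insert_of_mem hi)]

lemma ker_integrable {f : ℂ → ℂ} (hf : IsKer f) : Integrable f :=
  hf.1.continuous.integrable_of_hasCompactSupport hf.2

lemma pairing_add (hD : S_DBSC) (Ω : Set ℂ) {f g : ℂ → ℂ} (hf : IsKer f) (hg : IsKer g) :
    pairing Ω (fun z => f z + g z) = pairing Ω f + pairing Ω g := by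
  unfold pairing
  rw [← neg_add, ← integral_add (ker_integrable (hD f hf).2.1).integrableOn
    (ker_integrable (hD g hg).2.1).integrableOn]
  simp only [dbar_add hf hg]

lemma pairing_cmul (Ω : Set ℂ) {f : ℂ → ℂ} (c : ℂ) (hf : IsKer f) :
    pairing Ω (fun z => c * f z) = c * pairing Ω f := by
  unfold pairing
  simp only [dbar_cmul c hf]
  rw [integral_const_mul]
  ring

lemma pairing_sub (hD : S_DBSC) (Ω : Set ℂ) {f g : ℂ → ℂ} (hf : IsKer f) (hg : IsKer g) :
    pairing Ω (fun z => f z - g z) = pairing Ω f - pairing Ω g := by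
  have h := pairing_add hD Ω hf (ker_cmul (-1) hg)
  rw [pairing_cmul Ω (-1) hg] at h
  have e : (fun z => f z + -1 * g z) = fun z => f z - g z := by ext z; ring
  rw [e] at h
  rw [h]; ring

lemma pairing_sum (hD : S_DBSC) (Ω : Set ℂ) {ι : Type} (I : Finset ι) {f : ι → ℂ → ℂ}
    (hf : ∀ i ∈ I, IsKer (f i)) :
    pairing Ω (fun z => ∑ i ∈ I, f i z) = ∑ i ∈ I, pairing Ω (f i) := by
  classical
  induction I using Finset.induction_on with
  | empty => simp [pairing, dbar]
  | insert a J ha ih =>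
    simp only [Finset.sum_insert ha]
    rw [pairing_add hD Ω (hf a (Finset.mem_insert_self _ _))
      (ker_sum J fun i hi => hf i (Finset.mem_insert_of_mem hi)),
      ih fun i hi => hf i (Finset.mem_insert_of_mem hi)]

lemma exists_zero_out {f : ℂ → ℂ} (hc : HasCompactSupport f) :
    ∃ R : ℝ, 0 ≤ R ∧ ∀ z, R < ‖z‖ → f z = 0 := by
  obtain ⟨R, hR⟩ := hc.isCompact.isBounded.subset_closedBall 0
  refine ⟨max R 0, le_max_right _ _, fun z hz => ?_⟩
  by_contra h
  have := hR (subset_tsupport f h)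
  rw [mem_closedBall_zero_iff] at this
  exact absurd this (not_le.2 (lt_of_le_of_lt (le_max_left _ _) hz))

section avg

variable {η : ℂ → ℝ} (hη : IsMollifier η)

include hη

lemma castKer : IsKer (fun z => (η z : ℂ)) :=
  ⟨Complex.ofRealCLM.contDiff.comp hη.smooth,
    hη.compact.comp_left (g := fun x : ℝ => (x : ℂ)) (by simp)⟩

lemma T_isKer (hP : S_PAIR) {f : ℂ → ℂ} (hf : Continuous f) (hc : HasCompactSupport f) {s : ℝ}
    (hs : 0 < s) : IsKer (T η s f) := by
  obtain ⟨M, hM⟩ := hc.exists_bound_of_continuous hf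
  obtain ⟨R, -, hR⟩ := exists_zero_out hc
  have h := hP (fun z => (η z : ℂ)) ∅ s R M f (castKer hη) MeasurableSet.empty hs hf.measurable hM hR
  have e : T η s f = fun w => ∫ z, f z * sc (fun z => (η z : ℂ)) s (z - w) := by
    ext w; exact T_eq hs w
  rw [e]
  exact ⟨h.1, h.2.1⟩

lemma pair_T_le (hP : S_PAIR) {Ω : Set ℂ} (hΩ : MeasurableSet Ω) {f : ℂ → ℂ} (hf : Continuous f)
    (hc : HasCompactSupport f) {s : ℝ} (hs : 0 < s) {M : ℝ} (hM : ∀ z, ‖f z‖ ≤ M) :
    ‖pairing Ω (T η s f)‖ₑ ≤ ENNReal.ofReal M * V (fun z => (η z : ℂ)) Ω s := by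
  obtain ⟨R, -, hR⟩ := exists_zero_out hc
  have h := hP (fun z => (η z : ℂ)) Ω s R M f (castKer hη) hΩ hs hf.measurable hM hR
  have e : T η s f = fun w => ∫ z, f z * sc (fun z => (η z : ℂ)) s (z - w) := by
    ext w; exact T_eq hs w
  rw [e, h.2.2]
  refine (enorm_integral_le_lintegral_enorm _).trans ?_
  unfold V
  rw [← lintegral_const_mul' _ _ ENNReal.ofReal_ne_top]
  refine lintegral_mono fun z => ?_
  rw [enorm_mul]
  gcongr
  rw [← ofReal_norm_eq_enorm]
  exact ENNReal.ofReal_le_ofReal (hM z)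

lemma A_isKer (hP : S_PAIR) (k : ℕ) {f : ℂ → ℂ} (hf : Continuous f) (hc : HasCompactSupport f)
    {s : ℝ} (hs : 0 < s) : IsKer (A η k s f) :=
  ker_sum _ fun j _ => ker_cmul _ (T_isKer hη hP hf hc (by positivity))

lemma A_norm_le (k : ℕ) {f : ℂ → ℂ} {M : ℝ} (hM : ∀ z, ‖f z‖ ≤ M) (s : ℝ) (z : ℂ) :
    ‖A η k s f z‖ ≤ csum k * nrm η * M := by
  unfold A csum
  rw [mul_assoc, Finset.sum_mul]
  refine (norm_sum_le _ _).trans (Finset.sum_le_sum fun j _ => ?_)
  rw [norm_mul]
  exact mul_le_mul_of_nonneg_left (T_norm_le hη hM _ _) (norm_nonneg _)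

lemma A_sub (k : ℕ) {f g : ℂ → ℂ} (hf : Continuous f) (hg : Continuous g) (s : ℝ) (z : ℂ) :
    A η k s (fun w => f w - g w) z = A η k s f z - A η k s g z := by
  unfold A
  rw [← Finset.sum_sub_distrib]
  refine Finset.sum_congr rfl fun j _ => ?_
  rw [T_sub hη hf hg]; ring

lemma A_comm (hP : S_PAIR) (k : ℕ) {f : ℂ → ℂ} (hf : Continuous f) (hc : HasCompactSupport f)
    {a b : ℝ} (ha : 0 < a) (hb : 0 < b) (z : ℂ) :
    A η k a (A η k b f) z = A η k b (A η k a f) z := by
  obtain ⟨M, hM⟩ := hc.exists_bound_of_continuous hf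
  have key : ∀ {a b : ℝ}, 0 < a → 0 < b → A η k a (A η k b f) z =
      ∑ i ∈ Finset.range k, ∑ j ∈ Finset.range k, cf k i * (cf k j *
        T η ((i + 1) * a) (T η ((j + 1) * b) f) z) := by
    intro a b ha hb
    unfold A
    refine Finset.sum_congr rfl fun i _ => ?_
    rw [T_sum hη, Finset.mul_sum]
    · refine Finset.sum_congr rfl fun j _ => ?_
      rw [T_const_mul]
    · intro j
      exact (ker_cmul (cf k j) (T_isKer hη hP hf hc (s := ((j : ℝ) + 1) * b)
        (by positivity))).1.continuous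
  rw [key ha hb, key hb ha, Finset.sum_comm]
  refine Finset.sum_congr rfl fun j _ => Finset.sum_congr rfl fun i _ => ?_
  rw [T_comm hη hf hM]; ring

lemma pair_A_le (hP : S_PAIR) (hD : S_DBSC) (k : ℕ) {Ω : Set ℂ} (hΩ : MeasurableSet Ω) {f : ℂ → ℂ}
    (hf : Continuous f) (hc : HasCompactSupport f) {s : ℝ} (hs : 0 < s) {M : ℝ}
    (hM : ∀ z, ‖f z‖ ≤ M) :
    ‖pairing Ω (A η k s f)‖ₑ ≤ ENNReal.ofReal M *
      ∑ j ∈ Finset.range k, ‖cf k j‖ₑ * V (fun z => (η z : ℂ)) Ω ((j + 1) * s) := by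
  have hker : ∀ j ∈ Finset.range k, IsKer (T η (((j : ℕ) + 1) * s) f) := fun j _ =>
    T_isKer hη hP hf hc (by positivity)
  have h1 : pairing Ω (A η k s f) = ∑ j ∈ Finset.range k, cf k j *
      pairing Ω (T η ((j + 1) * s) f) := by
    have h2 := pairing_sum hD Ω (Finset.range k)
      (f := fun j z => cf k j * T η ((j + 1) * s) f z) fun j hj => ker_cmul _ (hker j hj)
    rw [show A η k s f = fun z => ∑ j ∈ Finset.range k, cf k j * T η ((j + 1) * s) f z from rfl, h2]
    exact Finset.sum_congr rfl fun j hj => pairing_cmul Ω _ (hker j hj)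
  rw [h1, Finset.mul_sum]
  refine (enorm_sum_le _ _).trans (Finset.sum_le_sum fun j _ => ?_)
  rw [enorm_mul, mul_left_comm]
  gcongr
  exact pair_T_le hη hP hΩ hf hc (by positivity) hM

lemma dbar_A (hP : S_PAIR) (k : ℕ) {f : ℂ → ℂ} (hf : IsKer f) {s : ℝ} (hs : 0 < s) (z : ℂ) :
    dbar (A η k s f) z = A η k s (dbar f) z := by
  have hker : ∀ j ∈ Finset.range k, IsKer (T η (((j : ℕ) + 1) * s) f) := fun j _ =>
    T_isKer hη hP hf.1.continuous hf.2 (by positivity)
  have h2 := dbar_sum (Finset.range k)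
    (f := fun j z => cf k j * T η ((j + 1) * s) f z) (fun j hj => ker_cmul _ (hker j hj)) z
  rw [show A η k s f = fun z => ∑ j ∈ Finset.range k, cf k j * T η ((j + 1) * s) f z from rfl, h2]
  unfold A
  refine Finset.sum_congr rfl fun j hj => ?_
  rw [dbar_cmul _ (hker j hj), dbar_T hη hf]

/-- the error term -/
lemma sub_A (k : ℕ) {f : ℂ → ℂ} (hf : Continuous f) (s : ℝ) (z : ℂ) :
    f z - A η k s f z = ∫ y, (η y : ℂ) * ((-1) ^ k * ((fwdDiff (s • y))^[k] f) z) := by
  have h1 : ∀ y : ℂ, (η y : ℂ) * ((-1) ^ k * ((fwdDiff (s • y))^[k] f) z) =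
      (η y : ℂ) * f z - ∑ j ∈ Finset.range k, cf k j * ((η y : ℂ) * f (z + (((j : ℝ) + 1) * s) • y)) := by
    intro y
    rw [fwdDiff_iter_eq_sum_shift, Finset.sum_range_succ', mul_add, Finset.mul_sum, mul_add,
      Finset.mul_sum]
    rw [sub_eq_add_neg, ← Finset.sum_neg_distrib, add_comm]
    congr 1
    · have h5 : ((-1 : ℂ) ^ k * (-1) ^ k) = 1 := by rw [← mul_pow]; norm_num
      simp only [Nat.sub_zero, Nat.choose_zero_right, Nat.cast_one, mul_one, zero_smul, add_zero,
        zsmul_eq_mul, Int.cast_pow, Int.cast_neg, Int.cast_one]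
      rw [← mul_assoc ((-1 : ℂ) ^ k), h5, one_mul]
    · refine Finset.sum_congr rfl fun j hj => ?_
      have hj' : j + 1 ≤ k := Finset.mem_range.1 hj
      have h6 : ((-1 : ℂ) ^ k * (-1) ^ (k - (j + 1))) = -(-1) ^ j := by
        rw [← pow_add, show k + (k - (j + 1)) = 2 * (k - (j + 1)) + (j + 1) by omega, pow_add,
          pow_mul]
        norm_num [pow_succ]
      rw [zsmul_eq_mul]
      push_cast
      rw [show (-1 : ℂ) ^ k * ((-1) ^ (k - (j + 1)) * (k.choose (j + 1) : ℂ) *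
        f (z + (j + 1) • s • y)) = ((-1 : ℂ) ^ k * (-1) ^ (k - (j + 1))) * (k.choose (j + 1) : ℂ) *
        f (z + (j + 1) • s • y) by ring, h6]
      have h7 : (j + 1) • s • y = (((j : ℝ) + 1) * s) • y := by
        rw [← Nat.cast_smul_eq_nsmul ℝ, smul_smul]; push_cast; rfl
      rw [h7]
      unfold cf
      ring
  simp_rw [h1]
  rw [integral_sub ((etaC_int hη).mul_const _)
    (integrable_finsetSum _ fun j _ => (T_int hη hf _ z).const_mul _),
    integral_finsetSum _ fun j _ => (T_int hη hf _ z).const_mul _, integral_mul_const]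
  have h3 : ∫ y, (η y : ℂ) = 1 := by
    have h4 := integral_complex_ofReal (μ := (volume : Measure ℂ)) (f := η)
    rw [h4, hη.integral]; simp
  rw [h3, one_mul]
  unfold A T
  congr 1
  refine Finset.sum_congr rfl fun j _ => ?_
  rw [integral_const_mul]

lemma sub_A_le {α : ℝ} (hα : 0 < α) (k : ℕ) {f : ℂ → ℂ} (hf : Continuous f) {M : ℝ}
    (hM : ∀ h z : ℂ, ‖((fwdDiff h)^[k] f) z‖ ≤ M * ‖h‖ ^ α) {s : ℝ} (hs : 0 ≤ s) (z : ℂ) :
    ‖f z - A η k s f z‖ ≤ M * s ^ α * ∫ y, |η y| * ‖y‖ ^ α := by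
  rw [sub_A hη k hf, ← integral_const_mul]
  have hη' := hη.smooth.continuous
  have hint : Integrable (fun y : ℂ => |η y| * ‖y‖ ^ α) := by
    apply Continuous.integrable_of_hasCompactSupport
    · have : Continuous fun y : ℂ => ‖y‖ ^ α := continuous_norm.rpow_const fun _ => Or.inr hα.le
      fun_prop
    · exact (hη.compact.comp_left (g := fun x : ℝ => |x|) (by simp)).mul_right
  refine norm_integral_le_of_norm_le (hint.const_mul _) (Eventually.of_forall fun y => ?_)
  rw [norm_mul, norm_mul, norm_pow, norm_neg, norm_one, one_pow, one_mul, Complex.norm_real,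
    Real.norm_eq_abs]
  have h1 := hM (s • y) z
  rw [norm_smul, Real.norm_eq_abs, abs_of_nonneg hs, Real.mul_rpow hs (norm_nonneg _)] at h1
  calc |η y| * ‖((fwdDiff (s • y))^[k] f) z‖ ≤ |η y| * (M * (s ^ α * ‖y‖ ^ α)) :=
        mul_le_mul_of_nonneg_left h1 (abs_nonneg _)
    _ = M * s ^ α * (|η y| * ‖y‖ ^ α) := by ring

end avg

end Pool.Agent.U243.DB
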