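import Pool.Agent.U243.DB.Suf2

/-!
# Sufficiency
-/

set_option autoImplicit false

open MeasureTheory Set Filter Topology
open scoped ENNReal NNReal ContDiff

namespace Pool.Agent.U243.DB

lemma diff_bound (h : ℂ) : ∀ (m : ℕ) (F : ℂ → ℂ) (B : ℝ), (∀ z, ‖F z‖ ≤ B) →
    ∀ z, ‖((fwdDiff h)^[m] F) z‖ ≤ 2 ^ m * B
  | 0, F, B, hB => by simpa using hB
  | m + 1, F, B, hB => by
    intro z
    rw [Function.iterate_succ_apply]
    have h1 : ∀ z, ‖fwdDiff h F z‖ ≤ 2 * B := by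
      intro z
      rw [fwdDiff]
      calc ‖F (z + h) - F z‖ ≤ ‖F (z + h)‖ + ‖F z‖ := norm_sub_le _ _
        _ ≤ B + B := add_le_add (hB _) (hB _)
        _ = 2 * B := by ring
    have := diff_bound h m _ _ h1 z
    rw [pow_succ]; linarith

lemma lip_diff {g : ℂ → ℂ} (hg : IsKer g) {k : ℕ} (hk : 0 < k) :
    ∃ M : ℝ, 0 ≤ M ∧ ∀ h z : ℂ, ‖((fwdDiff h)^[k] g) z‖ ≤ M * ‖h‖ ^ (1 : ℝ) := by
  obtain ⟨m, rfl⟩ : ∃ m, k = m + 1 := ⟨k - 1, by omega⟩
  obtain ⟨L, hL⟩ := ContDiff.lipschitzWith_of_hasCompactSupport (n := ∞) (𝕂 := ℝ) hg.2 hg.1 (by simp)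
  refine ⟨2 ^ m * L, by positivity, fun h z => ?_⟩
  rw [Function.iterate_succ_apply, Real.rpow_one]
  have h1 : ∀ z, ‖fwdDiff h g z‖ ≤ L * ‖h‖ := by
    intro z
    rw [fwdDiff, ← dist_eq_norm]
    refine (hL.dist_le_mul _ _).trans (le_of_eq ?_)
    rw [dist_eq_norm]; congr 2; ring
  have := diff_bound h m _ _ h1 z
  rw [mul_assoc]; exact this

section avg

variable {η : ℂ → ℝ} (hη : IsMollifier η)

include hη in
lemma A_conv {g : ℂ → ℂ} (hg : IsKer g) {k : ℕ} (hk : 0 < k) :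
    ∃ C : ℝ, 0 ≤ C ∧ ∀ s : ℝ, 0 ≤ s → ∀ z, ‖g z - A η k s g z‖ ≤ C * s := by
  obtain ⟨M, hM0, hM⟩ := lip_diff hg hk
  have hI : 0 ≤ ∫ y, |η y| * ‖y‖ ^ (1 : ℝ) := integral_nonneg fun y => by positivity
  refine ⟨M * ∫ y, |η y| * ‖y‖ ^ (1 : ℝ), by positivity, fun s hs z => ?_⟩
  have := sub_A_le hη one_pos k hg.1.continuous hM hs z
  rw [Real.rpow_one] at this
  linarith

omit hη in
lemma T_supp {f : ℂ → ℂ} {R r s : ℝ} (hR : ∀ z, R < ‖z‖ → f z = 0)
    (hr : ∀ y, r < ‖y‖ → η y = 0) (hs : 0 ≤ s) {z : ℂ} (hz : R + s * r < ‖z‖) :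
    T η s f z = 0 := by
  unfold T
  rw [show (fun y => (η y : ℂ) * f (z + s • y)) = fun _ => 0 from ?_]
  · simp
  ext y
  by_cases hy : r < ‖y‖
  · rw [hr y hy]; simp
  · push Not at hy
    rw [hR, mul_zero]
    have h1 : ‖z‖ ≤ ‖z + s • y‖ + s * ‖y‖ := by
      have := norm_sub_le (z + s • y) (s • y)
      rw [add_sub_cancel_right, norm_smul, Real.norm_eq_abs, abs_of_nonneg hs] at this
      exact this
    have h2 : s * ‖y‖ ≤ s * r := mul_le_mul_of_nonneg_left hy hs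
    linarith

omit hη in
lemma A_supp {f : ℂ → ℂ} {k : ℕ} {R r s : ℝ} (hR : ∀ z, R < ‖z‖ → f z = 0) (hr0 : 0 ≤ r)
    (hr : ∀ y, r < ‖y‖ → η y = 0) (hs : 0 ≤ s) {z : ℂ} (hz : R + k * s * r < ‖z‖) :
    A η k s f z = 0 := by
  unfold A
  refine Finset.sum_eq_zero fun j hj => ?_
  rw [T_supp hR hr (by positivity) ?_, mul_zero]
  have hj' : ((j : ℝ) + 1) ≤ k := by exact_mod_cast Finset.mem_range.1 hj
  have : ((j : ℝ) + 1) * s * r ≤ k * s * r := by gcongr
  linarith

include hη in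
lemma AA_close (hP : S_PAIR) {g : ℂ → ℂ} (hg : IsKer g) {k : ℕ} (hk : 0 < k) {Ω : Set ℂ} :
    ∃ C : ℝ, 0 ≤ C ∧ ∀ s : ℝ, 0 < s → s ≤ 1 →
      ‖(∫ z in Ω, A η k s (A η k s g) z) - ∫ z in Ω, g z‖ ≤ C * s := by
  obtain ⟨C, hC0, hC⟩ := A_conv hη hg hk
  obtain ⟨R, hR0, hR⟩ := exists_zero_out hg.2
  obtain ⟨r, hr0, hr⟩ := exists_zero_out (castKer hη).2
  have hr' : ∀ y, r < ‖y‖ → η y = 0 := fun y hy => by exact_mod_cast hr y hy
  set R' := R + k * r + k * r with hR'
  set v := (volume : Measure ℂ).real (Metric.closedBall 0 R') with hv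
  have hn := nrm_nonneg hη
  have hcs := csum_nonneg k
  refine ⟨(csum k * nrm η * C + C) * v, by positivity, fun s hs hs1 => ?_⟩
  have hA1 := A_isKer hη hP k hg.1.continuous hg.2 hs
  have hA2 := A_isKer hη hP k hA1.1.continuous hA1.2 hs
  rw [← integral_sub (ker_integrable hA2).integrableOn (ker_integrable hg).integrableOn]
  have hsup1 : ∀ z, R + k * r < ‖z‖ → A η k s g z = 0 := by
    intro z hz
    refine A_supp hR hr0 hr' hs.le ?_
    have : (k : ℝ) * s * r ≤ k * 1 * r := by gcongr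
    linarith
  have hsup2 : ∀ z, R' < ‖z‖ → A η k s (A η k s g) z = 0 := by
    intro z hz
    refine A_supp hsup1 hr0 hr' hs.le ?_
    have : (k : ℝ) * s * r ≤ k * 1 * r := by gcongr
    linarith
  have hkr : 0 ≤ (k : ℝ) * r := by positivity
  have hbd : ∀ z, ‖A η k s (A η k s g) z - g z‖ ≤
      (Metric.closedBall (0 : ℂ) R').indicator (fun _ => (csum k * nrm η * C + C) * s) z := by
    intro z
    by_cases hz : z ∈ Metric.closedBall (0 : ℂ) R'
    · rw [indicator_of_mem hz]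
      have h1 : A η k s (A η k s g) z - g z =
          -(A η k s (fun w => g w - A η k s g w) z) - (g z - A η k s g z) := by
        rw [A_sub hη k hg.1.continuous hA1.1.continuous]; ring
      rw [h1]
      calc _ ≤ ‖A η k s (fun w => g w - A η k s g w) z‖ + ‖g z - A η k s g z‖ := by
            refine (norm_sub_le _ _).trans ?_
            rw [norm_neg]
        _ ≤ csum k * nrm η * (C * s) + C * s :=
            add_le_add (A_norm_le hη k (fun w => hC s hs.le w) s z) (hC s hs.le z)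
        _ = (csum k * nrm η * C + C) * s := by ring
    · rw [indicator_of_notMem hz]
      rw [mem_closedBall_zero_iff, not_le] at hz
      rw [hsup2 z hz, hR z (by linarith), sub_zero, norm_zero]
  have hint : Integrable ((Metric.closedBall (0 : ℂ) R').indicator
      (fun _ => (csum k * nrm η * C + C) * s)) := by
    rw [integrable_indicator_iff measurableSet_closedBall]
    exact integrableOn_const (by exact (isCompact_closedBall _ _).measure_lt_top.ne)
  refine (norm_integral_le_of_norm_le hint.integrableOn (Eventually.of_forall hbd)).trans ?_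
  refine (setIntegral_le_integral hint (Eventually.of_forall fun z => ?_)).trans (le_of_eq ?_)
  · exact indicator_nonneg (fun _ _ => by positivity) z
  · rw [integral_indicator measurableSet_closedBall, setIntegral_const, smul_eq_mul]
    rw [← hv]; ring

include hη in
lemma pairing_lim (hP : S_PAIR) (hD : S_DBSC) {f : ℂ → ℂ} (hf : IsKer f) {k : ℕ} (hk : 0 < k)
    {Ω : Set ℂ} {s : ℕ → ℝ} (hs0 : ∀ n, 0 < s n) (hs1 : ∀ n, s n ≤ 1)
    (hs : Tendsto s atTop (𝓝 0)) :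
    Tendsto (fun n => pairing Ω (A η k (s n) (A η k (s n) f))) atTop (𝓝 (pairing Ω f)) := by
  have hg := (hD f hf).2.1
  obtain ⟨C, hC0, hC⟩ := AA_close hη hP hg hk (Ω := Ω)
  rw [tendsto_iff_norm_sub_tendsto_zero]
  refine squeeze_zero (fun _ => norm_nonneg _) (fun n => ?_) (by simpa using hs.const_mul C)
  have h1 : ∀ z, dbar (A η k (s n) (A η k (s n) f)) z = A η k (s n) (A η k (s n) (dbar f)) z := by
    intro z
    rw [dbar_A hη hP k (A_isKer hη hP k hf.1.continuous hf.2 (hs0 n)) (hs0 n)]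
    have : dbar (A η k (s n) f) = A η k (s n) (dbar f) := by
      ext w; exact dbar_A hη hP k hf (hs0 n) w
    rw [this]
  unfold pairing
  simp only [h1]
  rw [neg_sub_neg, norm_sub_rev]
  exact hC (s n) (hs0 n) (hs1 n)

end avg

lemma lipNorm_sup {α : ℝ} {k : ℕ} {f : ℂ → ℂ} (h : lipNorm α k f ≠ ⊤) (z : ℂ) :
    ‖f z‖ ≤ (lipNorm α k f).toReal := by
  rw [← ENNReal.ofReal_le_ofReal_iff ENNReal.toReal_nonneg, ENNReal.ofReal_toReal h,
    ofReal_norm_eq_enorm]
  exact (le_iSup (fun z => ‖f z‖ₑ) z).trans (le_self_add)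

lemma lipNorm_diff {α : ℝ} (hα : 0 < α) {k : ℕ} (hk : 0 < k) {f : ℂ → ℂ} (h : lipNorm α k f ≠ ⊤)
    (y z : ℂ) : ‖((fwdDiff y)^[k] f) z‖ ≤ (lipNorm α k f).toReal * ‖y‖ ^ α := by
  by_cases hy : y = 0
  · subst hy
    obtain ⟨m, rfl⟩ : ∃ m, k = m + 1 := ⟨k - 1, by omega⟩
    rw [Function.iterate_succ_apply]
    have h0 : fwdDiff (0 : ℂ) f = fun _ => 0 := by ext w; simp [fwdDiff]
    have h1 := diff_bound 0 m (fwdDiff (0 : ℂ) f) 0 (by intro w; rw [h0]; simp) z
    rw [mul_zero] at h1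
    exact h1.trans (by positivity)
  · have hy' : 0 < ‖y‖ := norm_pos_iff.2 hy
    rw [← ENNReal.ofReal_le_ofReal_iff (by positivity), ENNReal.ofReal_mul ENNReal.toReal_nonneg,
      ENNReal.ofReal_toReal h, ofReal_norm_eq_enorm, ← ENNReal.ofReal_rpow_of_pos hy',
      ofReal_norm_eq_enorm]
    have h2 : (⨆ z, ‖((fwdDiff y)^[k] f) z‖ₑ) / ‖y‖ₑ ^ α ≤ lipNorm α k f := by
      unfold lipNorm
      refine le_trans ?_ le_add_self
      exact le_iSup₂ (f := fun (h : ℂ) (_ : h ≠ 0) => (⨆ z, ‖((fwdDiff h)^[k] f) z‖ₑ) / ‖h‖ₑ ^ α)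
        y hy
    have h3 : (‖y‖ₑ ^ α) ≠ 0 := by
      simp [ENNReal.rpow_eq_zero_iff, hy]
    have h4 : (‖y‖ₑ ^ α) ≠ ⊤ := by
      simp [ENNReal.rpow_eq_top_iff, hy]
    rw [ENNReal.div_le_iff h3 h4] at h2
    exact (le_iSup (fun z => ‖((fwdDiff y)^[k] f) z‖ₑ) z).trans h2

theorem t_SUF (hP : S_PAIR) (hD : S_DBSC) (hSc : S_SCALE) : S_SUF := by
  intro α k Ω η hα hk hΩ hη hfin
  have hk0 : 0 < k := by
    have : (0 : ℝ) < k := hα.trans hk
    exact_mod_cast this
  obtain ⟨t, ht, htk, hsum⟩ := hSc α k (V (fun z => (η z : ℂ)) Ω)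
    ((hD _ (castKer hη)).2.2.2 Ω hΩ).2.1 hα hk0 hfin
  have ht1 : t ≤ 1 := by
    have : (1 : ℝ) ≤ k := by exact_mod_cast hk0
    nlinarith
  set s : ℕ → ℝ := fun n => t * (1 / 2) ^ n with hs
  have hs0 : ∀ n, 0 < s n := fun n => by simp only [hs]; positivity
  have hs1 : ∀ n, s n ≤ 1 := fun n => by
    have : ((1 : ℝ) / 2) ^ n ≤ 1 := pow_le_one₀ (by norm_num) (by norm_num)
    calc s n ≤ t * 1 := mul_le_mul_of_nonneg_left this ht.le
      _ ≤ 1 := by linarith
  have hsl : Tendsto s atTop (𝓝 0) := by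
    have h := (tendsto_pow_atTop_nhds_zero_of_lt_one (r := (1 / 2 : ℝ)) (by norm_num)
      (by norm_num)).const_mul t
    rw [mul_zero] at h
    exact h
  set W : ℕ → ℝ≥0∞ := fun n =>
    ∑ j ∈ Finset.range k, ‖cf k j‖ₑ * V (fun z => (η z : ℂ)) Ω ((j + 1) * s n) with hW
  set w : ℕ → ℝ≥0∞ := fun n => ENNReal.ofReal (((1 / 2 : ℝ) ^ n) ^ α) with hw
  set S : ℝ≥0∞ := ∑' n, w n * W n with hS
  have hSfin : S < ⊤ := by
    have h1 : S = ∑ j ∈ Finset.range k, ‖cf k j‖ₑ *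
        ∑' n, w n * V (fun z => (η z : ℂ)) Ω ((j + 1) * s n) := by
      rw [hS]
      simp only [hW, Finset.mul_sum]
      rw [Summable.tsum_finsetSum fun _ _ => ENNReal.summable]
      refine Finset.sum_congr rfl fun j _ => ?_
      rw [← ENNReal.tsum_mul_left]
      refine tsum_congr fun n => ?_
      ring
    rw [h1]
    refine ENNReal.sum_lt_top.2 fun j hj => ENNReal.mul_lt_top enorm_lt_top (hsum j hj)
  have hW0 : W 0 < ⊤ := by
    have h1 : w 0 * W 0 ≤ S := ENNReal.le_tsum 0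
    have h2 : w 0 = 1 := by simp [hw]
    rw [h2, one_mul] at h1
    exact h1.trans_lt hSfin
  set Cη : ℝ := ∫ y, |η y| * ‖y‖ ^ α with hCη
  have hCη0 : 0 ≤ Cη := integral_nonneg fun y => by positivity
  have hn := nrm_nonneg hη
  have hcs := csum_nonneg k
  set C : ℝ≥0∞ := ENNReal.ofReal (csum k * nrm η) * W 0 +
    ENNReal.ofReal (2 * Cη * t ^ α) * (ENNReal.ofReal (2 ^ α) * S + S) with hC
  have hCfin : C < ⊤ := by
    refine ENNReal.add_lt_top.2 ⟨ENNReal.mul_lt_top ENNReal.ofReal_lt_top hW0,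
      ENNReal.mul_lt_top ENNReal.ofReal_lt_top (ENNReal.add_lt_top.2
        ⟨ENNReal.mul_lt_top ENNReal.ofReal_lt_top hSfin, hSfin⟩)⟩
  refine ⟨C.toNNReal + 1, fun f hf1 hf2 => ?_⟩
  have hf : IsKer f := ⟨hf1, hf2⟩
  by_cases hN : lipNorm α k f = ⊤
  · rw [hN, ENNReal.mul_top (by simp)]; exact le_top
  set M : ℝ := (lipNorm α k f).toReal with hM
  have hM0 : 0 ≤ M := ENNReal.toReal_nonneg
  have hMs : ∀ z, ‖f z‖ ≤ M := lipNorm_sup hN
  have hMd : ∀ y z : ℂ, ‖((fwdDiff y)^[k] f) z‖ ≤ M * ‖y‖ ^ α := lipNorm_diff hα hk0 hN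
  set P : ℕ → ℂ := fun n => pairing Ω (A η k (s n) (A η k (s n) f)) with hPd
  have hlim : Tendsto P atTop (𝓝 (pairing Ω f)) := pairing_lim hη hP hD hf hk0 hs0 hs1 hsl
  have hfc := hf.1.continuous
  have hAk : ∀ n, IsKer (A η k (s n) f) := fun n => A_isKer hη hP k hfc hf.2 (hs0 n)
  -- the steps
  have hstep : ∀ m, ‖P (m + 1) - P m‖ₑ ≤ ENNReal.ofReal (M * (2 * Cη * t ^ α)) *
      (w m * W (m + 1) + w m * W m) := by
    intro m
    set g : ℂ → ℂ := fun z => A η k (s (m + 1)) f z - A η k (s m) f z with hg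
    have hgk : IsKer g := ker_sub (hAk (m + 1)) (hAk m)
    have hgb : ∀ z, ‖g z‖ ≤ 2 * M * Cη * (s m) ^ α := by
      intro z
      have e1 := sub_A_le hη hα k hfc hMd (hs0 m).le z
      have e2 := sub_A_le hη hα k hfc hMd (hs0 (m + 1)).le z
      have e3 : (s (m + 1)) ^ α ≤ (s m) ^ α := by
        refine Real.rpow_le_rpow (hs0 _).le ?_ hα.le
        simp only [hs, pow_succ]
        have : 0 ≤ t * (1 / 2) ^ m := by positivity
        linarith
      have e4 : g z = (f z - A η k (s m) f z) - (f z - A η k (s (m + 1)) f z) := by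
        simp only [hg]; ring
      rw [e4]
      refine (norm_sub_le _ _).trans ?_
      have e5 : M * (s (m + 1)) ^ α * Cη ≤ M * (s m) ^ α * Cη := by gcongr
      rw [← hCη] at e1 e2
      linarith
    have hdec : P (m + 1) - P m = pairing Ω (A η k (s (m + 1)) g) + pairing Ω (A η k (s m) g) := by
      have k1 : ∀ n i, IsKer (A η k (s n) (A η k (s i) f)) := fun n i =>
        A_isKer hη hP k (hAk i).1.continuous (hAk i).2 (hs0 n)
      have k2 : ∀ n, A η k (s n) g =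
          fun z => A η k (s n) (A η k (s (m + 1)) f) z - A η k (s n) (A η k (s m) f) z := by
        intro n
        ext z
        exact A_sub hη k (hAk (m + 1)).1.continuous (hAk m).1.continuous (s n) z
      have k3 : A η k (s m) (A η k (s (m + 1)) f) = A η k (s (m + 1)) (A η k (s m) f) := by
        ext z
        exact A_comm hη hP k hfc hf.2 (hs0 m) (hs0 (m + 1)) z
      rw [k2 (m + 1), k2 m, pairing_sub hD Ω (k1 _ _) (k1 _ _), pairing_sub hD Ω (k1 _ _) (k1 _ _),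
        k3]
      simp only [hPd]
      ring
    have hb1 : ∀ n, ‖pairing Ω (A η k (s n) g)‖ₑ ≤
        ENNReal.ofReal (M * (2 * Cη * t ^ α)) * (w m * W n) := by
      intro n
      refine (pair_A_le hη hP hD k hΩ hgk.1.continuous hgk.2 (hs0 n) hgb).trans (le_of_eq ?_)
      rw [← mul_assoc]
      simp only [hw]
      rw [← ENNReal.ofReal_mul (by positivity)]
      congr 2
      simp only [hs]
      rw [Real.mul_rpow ht.le (by positivity)]
      ring
    rw [hdec, mul_add]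
    exact (enorm_add_le _ _).trans (add_le_add (hb1 _) (hb1 _))
  have hP0 : ‖P 0‖ₑ ≤ ENNReal.ofReal (csum k * nrm η * M) * W 0 :=
    pair_A_le hη hP hD k hΩ (hAk 0).1.continuous (hAk 0).2 (hs0 0) (A_norm_le hη k hMs _)
  have htel : ∀ n, ‖P n‖ₑ ≤ ‖P 0‖ₑ + ∑ m ∈ Finset.range n, ‖P (m + 1) - P m‖ₑ := by
    intro n
    induction n with
    | zero => simp
    | succ n ih =>
      rw [Finset.sum_range_succ, ← add_assoc]
      calc ‖P (n + 1)‖ₑ = ‖P n + (P (n + 1) - P n)‖ₑ := by congr 1; ring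
        _ ≤ ‖P n‖ₑ + ‖P (n + 1) - P n‖ₑ := enorm_add_le _ _
        _ ≤ _ := by gcongr
  have hw2 : ∀ m, w m = ENNReal.ofReal (2 ^ α) * w (m + 1) := by
    intro m
    simp only [hw]
    rw [← ENNReal.ofReal_mul (by positivity), ← Real.mul_rpow (by norm_num) (by positivity)]
    congr 2
    rw [pow_succ]; ring
  have hbound : ∀ n, ‖P n‖ₑ ≤ ENNReal.ofReal M * C := by
    intro n
    refine (htel n).trans ?_
    have e1 : ∑ m ∈ Finset.range n, ‖P (m + 1) - P m‖ₑ ≤
        ENNReal.ofReal (M * (2 * Cη * t ^ α)) * (ENNReal.ofReal (2 ^ α) * S + S) := by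
      calc ∑ m ∈ Finset.range n, ‖P (m + 1) - P m‖ₑ
          ≤ ∑ m ∈ Finset.range n, ENNReal.ofReal (M * (2 * Cη * t ^ α)) *
            (w m * W (m + 1) + w m * W m) := Finset.sum_le_sum fun m _ => hstep m
        _ ≤ ∑' m, ENNReal.ofReal (M * (2 * Cη * t ^ α)) *
            (w m * W (m + 1) + w m * W m) := ENNReal.sum_le_tsum _
        _ = ENNReal.ofReal (M * (2 * Cη * t ^ α)) *
            ((∑' m, w m * W (m + 1)) + ∑' m, w m * W m) := by
            rw [ENNReal.tsum_mul_left, ENNReal.tsum_add]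
        _ ≤ _ := by
            gcongr
            have hw3 : ∀ m, w m * W (m + 1) = ENNReal.ofReal (2 ^ α) * (w (m + 1) * W (m + 1)) := by
              intro m
              rw [hw2 m, mul_assoc]
            simp_rw [hw3]
            rw [ENNReal.tsum_mul_left]
            gcongr
            have := ENNReal.tsum_comp_le_tsum_of_injective
              (f := fun m : ℕ => m + 1) (add_left_injective 1) (fun n => w n * W n)
            exact this
    calc ‖P 0‖ₑ + ∑ m ∈ Finset.range n, ‖P (m + 1) - P m‖ₑ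
        ≤ ENNReal.ofReal (csum k * nrm η * M) * W 0 +
          ENNReal.ofReal (M * (2 * Cη * t ^ α)) * (ENNReal.ofReal (2 ^ α) * S + S) :=
          add_le_add hP0 e1
      _ = ENNReal.ofReal M * C := by
          have a1 : ENNReal.ofReal (csum k * nrm η * M) =
              ENNReal.ofReal M * ENNReal.ofReal (csum k * nrm η) := by
            rw [mul_comm (csum k * nrm η) M, ENNReal.ofReal_mul hM0]
          have a2 : ENNReal.ofReal (M * (2 * Cη * t ^ α)) =
              ENNReal.ofReal M * ENNReal.ofReal (2 * Cη * t ^ α) := ENNReal.ofReal_mul hM0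
          rw [a1, a2, hC]; ring
  have hfinal : ‖pairing Ω f‖ₑ ≤ ENNReal.ofReal M * C :=
    le_of_tendsto (hlim.enorm) (Eventually.of_forall hbound)
  refine hfinal.trans ?_
  rw [hM, ENNReal.ofReal_toReal hN, mul_comm]
  gcongr
  rw [ENNReal.coe_add, ENNReal.coe_toNNReal hCfin.ne]
  exact le_self_add

end Pool.Agent.U243.DB
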